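import Pool.Agent.Lib_helper95.CStar.Path

/-!
# The single bit: the moved path and its cost
-/

set_option autoImplicit false

open Complex Metric

namespace Pool.Agent.Lib_helper95.CStar

/-- the denominator of the path -/
noncomputable def Q (s : ℝ) (v : ℂ) : ℂ := (2 - 3 * s : ℝ) - (s * (1 - 2 * s) : ℝ) * v ^ 2

/-- the (scaled) path of a moved bit; on the circle `|v| = √3` the bit is at `U s v / v` -/
noncomputable def U (s : ℝ) (v : ℂ) : ℂ :=
  ((3 + v ^ 2) * (1 + (s : ℂ) ^ 2 * v ^ 2) - 8 * s * v ^ 2) / (2 * Q s v)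

lemma norm_sq_le_three {v : ℂ} (hv : ‖v‖ ≤ √3) : ‖v‖ ^ 2 ≤ 3 := by
  have := norm_nonneg v
  nlinarith [sqrt3_sq, Real.sqrt_nonneg 3]

lemma Q_ne_zero {s : ℝ} (hs0 : 0 ≤ s) (hs : s ≤ 1 / 3) {v : ℂ} (hv : ‖v‖ ≤ √3) :
    Q s v ≠ 0 := by
  intro h
  have h1 : ((2 - 3 * s : ℝ) : ℂ) = (s * (1 - 2 * s) : ℝ) * v ^ 2 := by
    have := h
    unfold Q at this
    linear_combination this
  have h2 : ‖((2 - 3 * s : ℝ) : ℂ)‖ = ‖((s * (1 - 2 * s) : ℝ) : ℂ) * v ^ 2‖ := by rw [h1]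
  rw [norm_mul, norm_pow, Complex.norm_real, Complex.norm_real, Real.norm_eq_abs,
    Real.norm_eq_abs, abs_of_nonneg (by linarith), abs_of_nonneg (by nlinarith)] at h2
  have h3 := norm_sq_le_three hv
  have h4 : 0 ≤ s * (1 - 2 * s) := by nlinarith
  have h5 := mul_le_mul_of_nonneg_left h3 h4
  nlinarith

lemma one_sub_ne_zero {s : ℝ} (hs0 : 0 ≤ s) (hs : s ≤ 1 / 3) {v : ℂ} (hv : ‖v‖ ≤ √3) :
    1 - (s : ℂ) ^ 2 * v ^ 2 ≠ 0 := by
  intro h
  have h1 : (1 : ℂ) = (s : ℂ) ^ 2 * v ^ 2 := by linear_combination h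
  have h2 : ‖(1 : ℂ)‖ = ‖(s : ℂ) ^ 2 * v ^ 2‖ := by rw [← h1]
  rw [norm_one, norm_mul, norm_pow, norm_pow, Complex.norm_real, Real.norm_eq_abs,
    abs_of_nonneg hs0] at h2
  have h3 := norm_sq_le_three hv
  have h4 : s ^ 2 ≤ 1 / 9 := by nlinarith
  have h5 : s ^ 2 * ‖v‖ ^ 2 ≤ 1 / 9 * 3 := mul_le_mul h4 h3 (by positivity) (by norm_num)
  linarith

lemma Q_one (s : ℝ) : Q s 1 = (2 * (1 - s) ^ 2 : ℝ) := by
  unfold Q; push_cast; ring

lemma U_one {s : ℝ} (hs : s ≤ 1 / 3) : U s 1 = 1 := by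
  unfold U
  rw [Q_one]
  have h : ((1 - s : ℝ) : ℂ) ≠ 0 := by
    have : (1 - s : ℝ) ≠ 0 := by linarith
    exact_mod_cast this
  push_cast at h ⊢
  field_simp
  ring

lemma Q_analytic (s : ℝ) : AnalyticOnNhd ℂ (fun z => Q s (V z)) (closedBall 0 1) := by
  intro z hz
  have := V_analytic z hz
  unfold Q
  fun_prop

lemma U_analytic {s : ℝ} (hs0 : 0 ≤ s) (hs : s ≤ 1 / 3) :
    AnalyticOnNhd ℂ (fun z => U s (V z)) (closedBall 0 1) := by
  intro z hz
  have h1 := V_analytic z hz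
  have h2 := Q_analytic s z hz
  rw [mem_closedBall, dist_zero_right] at hz
  unfold U
  apply AnalyticAt.div
  · fun_prop
  · fun_prop
  · exact mul_ne_zero two_ne_zero (Q_ne_zero hs0 hs (norm_V_le hz))

/-- circle average of `log |Q|` -/
lemma avg_Q {s : ℝ} (hs0 : 0 ≤ s) (hs : s ≤ 1 / 3) :
    Real.circleAverage (fun z => Real.log ‖Q s (V z)‖) 0 1 = Real.log (2 * (1 - s) ^ 2) := by
  have := AnalyticOnNhd.circleAverage_log_norm_of_ne_zero (R := 1) (c := 0)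
    (g := fun z => Q s (V z)) (by rw [abs_one]; exact Q_analytic s) (by
      intro u hu
      rw [abs_one, mem_closedBall, dist_zero_right] at hu
      exact Q_ne_zero hs0 hs (norm_V_le hu))
  rw [this, V_zero, Q_one, Complex.norm_real, Real.norm_eq_abs, abs_of_nonneg (by positivity)]

lemma int_Q (s : ℝ) : CircleIntegrable (fun z => Real.log ‖Q s (V z)‖) 0 1 :=
  ((Q_analytic s).mono (by rw [abs_one]; exact sphere_subset_closedBall)).meromorphicOn
    |>.circleIntegrable_log_norm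

lemma P_analytic (s : ℝ) :
    AnalyticOnNhd ℂ (fun z => 1 - (s : ℂ) ^ 2 * V z ^ 2) (closedBall 0 1) := by
  intro z hz
  have := V_analytic z hz
  fun_prop

/-- circle average of `log |1 - s² v²|` -/
lemma avg_P {s : ℝ} (hs0 : 0 ≤ s) (hs : s ≤ 1 / 3) :
    Real.circleAverage (fun z => Real.log ‖1 - (s : ℂ) ^ 2 * V z ^ 2‖) 0 1 =
      Real.log (1 - s ^ 2) := by
  have := AnalyticOnNhd.circleAverage_log_norm_of_ne_zero (R := 1) (c := 0)
    (g := fun z => 1 - (s : ℂ) ^ 2 * V z ^ 2) (by rw [abs_one]; exact P_analytic s) (by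
      intro u hu
      rw [abs_one, mem_closedBall, dist_zero_right] at hu
      exact one_sub_ne_zero hs0 hs (norm_V_le hu))
  rw [this, V_zero]
  have h : (1 : ℂ) - (s : ℂ) ^ 2 * 1 ^ 2 = ((1 - s ^ 2 : ℝ) : ℂ) := by push_cast; ring
  rw [h, Complex.norm_real, Real.norm_eq_abs, abs_of_nonneg (by nlinarith)]

lemma int_P (s : ℝ) : CircleIntegrable (fun z => Real.log ‖1 - (s : ℂ) ^ 2 * V z ^ 2‖) 0 1 :=
  ((P_analytic s).mono (by rw [abs_one]; exact sphere_subset_closedBall)).meromorphicOn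
    |>.circleIntegrable_log_norm

/-! ### on the circle `|v| = √3` -/

/-- the real parameter `ζ = Re v / 2` -/
noncomputable def ze (v : ℂ) : ℝ := v.re / 2

lemma ze_lt {v : ℂ} (hv : ‖v‖ = √3) : |ze v| < 1 := by
  have h1 := Complex.abs_re_le_norm v
  rw [hv] at h1
  have h2 : √3 < 2 := by
    rw [Real.sqrt_lt' (by norm_num)]; norm_num
  unfold ze
  rw [abs_div, abs_two]
  linarith

lemma normSq_three {v : ℂ} (hv : ‖v‖ = √3) : v.re ^ 2 + v.im ^ 2 = 3 := by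
  have h := Complex.sq_norm v
  rw [hv, Real.sq_sqrt (by norm_num), Complex.normSq_apply] at h
  nlinarith

lemma norm_one_sub {s : ℝ} {v : ℂ} (hv : ‖v‖ = √3) :
    ‖1 - (s : ℂ) * v‖ ^ 2 = 1 + 3 * s ^ 2 - 4 * s * ze v := by
  have h := normSq_three hv
  rw [Complex.sq_norm, Complex.normSq_apply]
  simp only [sub_re, one_re, mul_re, ofReal_re, ofReal_im, zero_mul, sub_zero, sub_im, one_im,
    mul_im, add_zero, zero_sub, ze]
  nlinarith

lemma norm_one_add {s : ℝ} {v : ℂ} (hv : ‖v‖ = √3) :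
    ‖1 + (s : ℂ) * v‖ ^ 2 = 1 + 3 * s ^ 2 + 4 * s * ze v := by
  have h := norm_one_sub (s := -s) hv
  push_cast at h
  rw [show (1 : ℂ) + s * v = 1 - -(s : ℂ) * v by ring, h]
  ring

lemma norm_quad_add {v : ℂ} (hv : ‖v‖ = √3) :
    ‖(v + 1) * (v + 3)‖ = 4 * √3 * (1 + ze v) := by
  have h := normSq_three hv
  have hz := ze_lt hv
  rw [abs_lt] at hz
  have key : ‖(v + 1) * (v + 3)‖ ^ 2 = (4 * √3 * (1 + ze v)) ^ 2 := by
    rw [norm_mul, mul_pow, Complex.sq_norm, Complex.sq_norm, Complex.normSq_apply,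
      Complex.normSq_apply, mul_pow, mul_pow, Real.sq_sqrt (by norm_num)]
    simp only [add_re, one_re, add_im, one_im, add_zero, ze]
    simp only [show (3 : ℂ).re = 3 from rfl, show (3 : ℂ).im = 0 from rfl, add_zero]
    have h2 : v.im ^ 2 = 3 - v.re ^ 2 := by linarith
    have h3 : (v.re + 1) * (v.re + 1) + v.im * v.im = 4 + 2 * v.re := by nlinarith
    have h4 : (v.re + 3) * (v.re + 3) + v.im * v.im = 12 + 6 * v.re := by nlinarith
    rw [h3, h4]; ring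
  refine (sq_eq_sq₀ (norm_nonneg _) ?_).1 key
  have : 0 < 1 + ze v := by linarith
  positivity

lemma norm_quad_sub {v : ℂ} (hv : ‖v‖ = √3) :
    ‖(v - 1) * (v - 3)‖ = 4 * √3 * (1 - ze v) := by
  have h := norm_quad_add (v := -v) (by rwa [norm_neg])
  rw [show (-v + 1) * (-v + 3) = (v - 1) * (v - 3) by ring] at h
  rw [h]; simp [ze]; ring

/-- `|1 + c| / 2` for the moved bit -/
lemma moved_add {s : ℝ} (hs0 : 0 ≤ s) (hs : s ≤ 1 / 3) {v : ℂ} (hv : ‖v‖ = √3) :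
    ‖v + U s v‖ / (2 * √3) = (1 + ze v) * (1 + 3 * s ^ 2 - 4 * s * ze v) / ‖Q s v‖ := by
  have hQ := Q_ne_zero hs0 hs hv.le
  have h1 : v + U s v = (v + 1) * (v + 3) * (1 - (s : ℂ) * v) ^ 2 / (2 * Q s v) := by
    unfold U
    rw [eq_div_iff (mul_ne_zero two_ne_zero hQ), add_mul, div_mul_cancel₀ _
      (mul_ne_zero two_ne_zero hQ)]
    unfold Q
    push_cast
    ring
  rw [h1, norm_div, norm_mul ((v + 1) * (v + 3)), norm_quad_add hv, norm_pow, norm_one_sub hv,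
    norm_mul, Complex.norm_two]
  have hQ' : ‖Q s v‖ ≠ 0 := norm_ne_zero_iff.2 hQ
  have h3 : (√3 : ℝ) ≠ 0 := by positivity
  field_simp
  ring

/-- `|1 - c| / 2` for the moved bit -/
lemma moved_sub {s : ℝ} (hs0 : 0 ≤ s) (hs : s ≤ 1 / 3) {v : ℂ} (hv : ‖v‖ = √3) :
    ‖v - U s v‖ / (2 * √3) = (1 - ze v) * (1 + 3 * s ^ 2 + 4 * s * ze v) / ‖Q s v‖ := by
  have hQ := Q_ne_zero hs0 hs hv.le
  have h1 : v - U s v = -((v - 1) * (v - 3) * (1 + (s : ℂ) * v) ^ 2) / (2 * Q s v) := by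
    unfold U
    rw [eq_div_iff (mul_ne_zero two_ne_zero hQ), sub_mul, div_mul_cancel₀ _
      (mul_ne_zero two_ne_zero hQ)]
    unfold Q
    push_cast
    ring
  rw [h1, norm_div, norm_neg, norm_mul ((v - 1) * (v - 3)), norm_quad_sub hv, norm_pow,
    norm_one_add hv, norm_mul, Complex.norm_two]
  have hQ' : ‖Q s v‖ ≠ 0 := norm_ne_zero_iff.2 hQ
  have h3 : (√3 : ℝ) ≠ 0 := by positivity
  field_simp
  ring

lemma norm_P {s : ℝ} {v : ℂ} (hv : ‖v‖ = √3) :
    ‖1 - (s : ℂ) ^ 2 * v ^ 2‖ ^ 2 =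
      (1 + 3 * s ^ 2 - 4 * s * ze v) * (1 + 3 * s ^ 2 + 4 * s * ze v) := by
  rw [show (1 : ℂ) - (s : ℂ) ^ 2 * v ^ 2 = (1 - s * v) * (1 + s * v) by ring, norm_mul, mul_pow,
    norm_one_sub hv, norm_one_add hv]

/-! ### the inequality for one bit -/

lemma log_le_div {x y : ℝ} (hx : 0 < x) (hy : 0 < y) :
    Real.log x ≤ Real.log y + (x / y - 1) := by
  have := Real.log_le_sub_one_of_pos (div_pos hx hy)
  rw [Real.log_div hx.ne' hy.ne'] at this
  linarith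

lemma bit_ineq {m t ζ a b L : ℝ} (hm : 0 < m) (ht0 : 0 ≤ t) (ht : t ≤ 1) (hζ : |ζ| < 1)
    (ha : 0 < a) (hb : 0 < b) (hL : 0 < L) :
    m * (1 - t) / 2 * Real.log a + m * (1 - t) / 2 * Real.log b +
      m * t * Real.log ((1 + ζ) * (1 - t * ζ) * L * a + (1 - ζ) * (1 + t * ζ) * L * b) ≤
    m * Real.log ((a + b) / 2) + m * (1 - t) / 2 * Real.log ((1 - t * ζ) * (1 + t * ζ)) +
      m * t * Real.log (2 * L * ((1 - t * ζ) * (1 + t * ζ))) := by
  rw [abs_lt] at hζ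
  have hT : 0 < (a + b) / 2 := by positivity
  have h1 : 0 < 1 - t * ζ := by nlinarith
  have h2 : 0 < 1 + t * ζ := by nlinarith
  have h3 : 0 < 1 - ζ := by linarith
  have h4 : 0 < 1 + ζ := by linarith
  have e1 := log_le_div ha (mul_pos hT h2)
  have e2 := log_le_div hb (mul_pos hT h1)
  have hX : 0 < (1 + ζ) * (1 - t * ζ) * L * a + (1 - ζ) * (1 + t * ζ) * L * b := by positivity
  have hX0 : 0 < 2 * L * ((1 - t * ζ) * (1 + t * ζ)) := by positivity
  have e3 := log_le_div hX (mul_pos hT hX0)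
  rw [Real.log_mul hT.ne' h2.ne'] at e1
  rw [Real.log_mul hT.ne' h1.ne'] at e2
  rw [Real.log_mul hT.ne' hX0.ne'] at e3
  rw [Real.log_mul h1.ne' h2.ne']
  have w1 : 0 ≤ m * (1 - t) / 2 := by
    have : 0 ≤ 1 - t := by linarith
    positivity
  have w3 : 0 ≤ m * t := by positivity
  have f1 := mul_le_mul_of_nonneg_left e1 w1
  have f2 := mul_le_mul_of_nonneg_left e2 w1
  have f3 := mul_le_mul_of_nonneg_left e3 w3
  have hsum : m * (1 - t) / 2 * (a / ((a + b) / 2 * (1 + t * ζ)) - 1) +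
      m * (1 - t) / 2 * (b / ((a + b) / 2 * (1 - t * ζ)) - 1) +
      m * t * (((1 + ζ) * (1 - t * ζ) * L * a + (1 - ζ) * (1 + t * ζ) * L * b) /
        ((a + b) / 2 * (2 * L * ((1 - t * ζ) * (1 + t * ζ)))) - 1) = 0 := by
    have : a + b ≠ 0 := by positivity
    field_simp
    ring
  nlinarith

/-- Gibbs' inequality for one value -/
lemma gibbs_one {q y : ℝ} (hq : 0 ≤ q) (hy : 0 < y) :
    q * Real.log y ≤ q * Real.log q + (y - q) := by
  rcases hq.eq_or_lt with h | h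
  · subst h; simp; exact hy.le
  · have := log_le_div hy h
    have h2 := mul_le_mul_of_nonneg_left this h.le
    have h3 : q * (y / q - 1) = y - q := by field_simp
    nlinarith

/-- The average cost of one bit is at most half of its entropy. -/
lemma cost_le {mp mm m s : ℝ} (hmp : 0 ≤ mp) (hmm : 0 ≤ mm) (hm : 0 < m) (hsum : mp + mm = m)
    (hs0 : 0 ≤ s) (hs : s ≤ 1 / 3) :
    2 * mp * Real.log (1 + s) + 2 * mm * Real.log (1 - s) - m * Real.log (1 + 3 * s ^ 2) ≤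
      1 / 2 * (mp * Real.log mp + mm * Real.log mm + m * Real.log 2 - m * Real.log m) := by
  have h1 : 0 < 1 + s := by linarith
  have h2 : 0 < 1 - s := by linarith
  have hB : 0 < 1 + 3 * s ^ 2 := by positivity
  have g1 := gibbs_one (y := m * (1 + s) ^ 4 / (2 * (1 + 3 * s ^ 2) ^ 2)) hmp (by positivity)
  have g2 := gibbs_one (y := m * (1 - s) ^ 4 / (2 * (1 + 3 * s ^ 2) ^ 2)) hmm (by positivity)
  rw [Real.log_div (by positivity) (by positivity), Real.log_mul hm.ne' (by positivity),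
    Real.log_mul two_ne_zero (by positivity), Real.log_pow, Real.log_pow] at g1 g2
  have h3 : m * (1 + s) ^ 4 / (2 * (1 + 3 * s ^ 2) ^ 2) +
      m * (1 - s) ^ 4 / (2 * (1 + 3 * s ^ 2) ^ 2) ≤ m := by
    rw [← add_div, div_le_iff₀ (by positivity)]
    nlinarith [pow_nonneg hs0 4, mul_nonneg hm.le (pow_nonneg hs0 4)]
  push_cast at g1 g2
  have e : ∀ x : ℝ, m * x = mp * x + mm * x := fun x => by rw [← hsum]; ring
  rw [e (Real.log (1 + 3 * s ^ 2)), e (Real.log 2), e (Real.log m)]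
  linarith

end Pool.Agent.Lib_helper95.CStar
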