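import Pool.Agent.Lib_helper95.CStar.Step
import Pool.Agent.Lib_helper8.CubeLower

/-!
# `‖f‖₂ ≤ √3 ^ deg f * ‖f‖₁` on the cube
-/

set_option autoImplicit false

open Complex Metric
open Pool.Agent.Lib_helper8.Cube

namespace Pool.Agent.Lib_helper95.CStar

variable {n : ℕ}

lemma chi_sg (S : Finset (Fin n)) (y : Cube n) : ((chi S y : ℝ) : ℂ) = ∏ i ∈ S, sg (y i) := by
  unfold chi sg
  push_cast
  rfl

/-- the multilinear extension, in two forms -/
lemma multilinear (f : Cube n → ℝ) (w : Fin n → ℂ) :
    ∑ S : Finset (Fin n), (coeff f S : ℂ) * ∏ i ∈ S, w i =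
      ∑ y, (f y : ℂ) * ∏ i, ((1 + sg (y i) * w i) / 2) := by
  have h1 : ∀ y : Cube n, ∏ i, ((1 + sg (y i) * w i) / 2) =
      (∑ S : Finset (Fin n), ∏ i ∈ S, (sg (y i) * w i)) / 2 ^ n := by
    intro y
    rw [Finset.prod_div_distrib, Finset.prod_const, Finset.card_univ, Fintype.card_fin,
      Finset.prod_one_add, Finset.powerset_univ]
  have h2 : ∀ S : Finset (Fin n), (coeff f S : ℂ) =
      (∑ y, (f y : ℂ) * ∏ i ∈ S, sg (y i)) / 2 ^ n := by
    intro S
    unfold coeff mean
    push_cast
    congr 1
    apply Finset.sum_congr rfl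
    intro y _
    rw [chi_sg]
  simp only [h1, h2]
  have h3 : ∀ S : Finset (Fin n), (∑ y : Cube n, (f y : ℂ) * ∏ i ∈ S, sg (y i)) / 2 ^ n *
      ∏ i ∈ S, w i = ∑ y : Cube n, (f y : ℂ) * ((∏ i ∈ S, (sg (y i) * w i)) / 2 ^ n) := by
    intro S
    rw [div_mul_eq_mul_div, Finset.sum_mul, Finset.sum_div]
    apply Finset.sum_congr rfl
    intro y _
    rw [Finset.prod_mul_distrib]
    ring
  simp only [h3]
  rw [Finset.sum_comm]
  apply Finset.sum_congr rfl
  intro y _
  rw [← Finset.mul_sum, Finset.sum_div]

/-- at a vertex the multilinear extension is the function -/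
lemma eval_vertex (f : Cube n → ℝ) (x : Cube n) :
    ∑ y, (f y : ℂ) * ∏ i, ((1 + sg (y i) * sg (x i)) / 2) = f x := by
  rw [Finset.sum_eq_single x]
  · have : ∀ i, (1 + sg (x i) * sg (x i)) / 2 = 1 := by
      intro i; rw [sg_mul_self]; norm_num
    simp [this]
  · intro y _ hy
    obtain ⟨i, hi⟩ := Function.ne_iff.1 hy
    have : (1 + sg (y i) * sg (x i)) / 2 = 0 := by
      have h : y i = -x i := by
        rcases Int.units_eq_one_or (y i) with h1 | h1 <;>
          rcases Int.units_eq_one_or (x i) with h2 | h2 <;> simp_all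
      rw [h, sg_neg, neg_mul, sg_mul_self]; norm_num
    rw [Finset.prod_eq_zero (Finset.mem_univ i) this, mul_zero]
  · intro h; exact absurd (Finset.mem_univ x) h

/-- the homogenised function along a path -/
noncomputable def FF (f : Cube n → ℝ) (d : ℕ) (u : Fin n → ℂ → ℂ) (z : ℂ) : ℂ :=
  ∑ S : Finset (Fin n), (coeff f S : ℂ) * V z ^ (d - S.card) * ∏ i ∈ S, u i z

lemma FF_analytic (f : Cube n → ℝ) (d : ℕ) {u : Fin n → ℂ → ℂ}
    (hu : ∀ i, AnalyticOnNhd ℂ (u i) (closedBall 0 1)) :
    AnalyticOnNhd ℂ (FF f d u) (closedBall 0 1) := by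
  intro z hz
  unfold FF
  apply Finset.analyticAt_fun_sum
  intro S _
  apply AnalyticAt.mul
  · exact analyticAt_const.mul ((V_analytic z hz).pow _)
  · exact Finset.analyticAt_fun_prod _ fun i _ => hu i z hz

lemma coeff_zero_of_deg {f : Cube n → ℝ} {S : Finset (Fin n)} (h : deg f < S.card) :
    coeff f S = 0 := by
  by_contra hne
  have : S.card ≤ deg f := by
    unfold deg
    exact Finset.le_sup (f := Finset.card) (by simp [hne])
  omega

lemma FF_eq (f : Cube n → ℝ) (u : Fin n → ℂ → ℂ) {z : ℂ} (hv : V z ≠ 0) :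
    FF f (deg f) u z = V z ^ deg f *
      ∑ y, (f y : ℂ) * ∏ i, ((1 + sg (y i) * (u i z / V z)) / 2) := by
  rw [← multilinear, Finset.mul_sum]
  unfold FF
  apply Finset.sum_congr rfl
  intro S _
  rcases le_or_gt S.card (deg f) with h | h
  · rw [Finset.prod_div_distrib, Finset.prod_const]
    have : V z ^ deg f = V z ^ (deg f - S.card) * V z ^ S.card := by
      rw [← pow_add]; congr 1; omega
    rw [this]
    field_simp
  · rw [coeff_zero_of_deg h]; simp

lemma FF_zero (f : Cube n → ℝ) (u : Fin n → ℂ → ℂ) (x : Cube n) (hu : ∀ i, u i 0 = sg (x i)) :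
    FF f (deg f) u 0 = f x := by
  rw [FF_eq f u (by rw [V_zero]; exact one_ne_zero), V_zero, one_pow, one_mul]
  simp only [hu, div_one]
  exact eval_vertex f x

lemma FF_norm_le (f : Cube n → ℝ) (u : Fin n → ℂ → ℂ) {z : ℂ} (hv : ‖V z‖ = √3)
    {G : Cube n → ℝ} (hG : ∀ y, |f y| ≤ G y) :
    ‖FF f (deg f) u z‖ ≤ √3 ^ deg f * Kern (V z) (fun i => u i z) G := by
  have h3 : (0 : ℝ) < √3 := by positivity
  have hv0 : V z ≠ 0 := by
    intro h; rw [h, norm_zero] at hv; exact h3.ne hv
  rw [FF_eq f u hv0, norm_mul, norm_pow, hv]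
  apply mul_le_mul_of_nonneg_left _ (by positivity)
  refine (norm_sum_le _ _).trans ?_
  unfold Kern
  apply Finset.sum_le_sum
  intro y _
  rw [norm_mul, norm_prod, Complex.norm_real, Real.norm_eq_abs]
  have h1 : ∀ i, ‖(1 + sg (y i) * (u i z / V z)) / 2‖ = ker1 (V z) (u i z) (y i) := by
    intro i
    unfold ker1
    have h2 : (1 + sg (y i) * (u i z / V z)) / 2 = (V z + sg (y i) * u i z) / (2 * V z) := by
      field_simp
    rw [h2, norm_div, norm_mul, Complex.norm_two, hv]
  simp only [h1]
  apply mul_le_mul_of_nonneg_right (hG y)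
  exact Finset.prod_nonneg fun i _ => by unfold ker1; positivity

lemma Kern_continuous {u : Fin n → ℂ → ℂ} (hu : ∀ i, AnalyticOnNhd ℂ (u i) (closedBall 0 1))
    (G : Cube n → ℝ) :
    ContinuousOn (fun z => Kern (V z) (fun i => u i z) G) (sphere 0 1) := by
  unfold Kern ker1
  have hV : ContinuousOn V (sphere 0 1) := V_analytic.continuousOn.mono sphere_subset_closedBall
  have hu' : ∀ i, ContinuousOn (u i) (sphere 0 1) := fun i =>
    (hu i).continuousOn.mono sphere_subset_closedBall
  apply continuousOn_finsetSum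
  intro y _
  apply ContinuousOn.mul continuousOn_const
  apply continuousOn_finsetProd
  intro i _
  exact ((hV.add (continuousOn_const.mul (hu' i))).norm).div_const _

lemma Kern_pos {u : Fin n → ℂ} {v : ℂ} {G : Cube n → ℝ} (hG : ∀ y, 0 < G y) (x : Cube n)
    (hx : ∀ i, 0 < ker1 v (u i) (x i)) : 0 < Kern v u G := by
  unfold Kern
  apply Finset.sum_pos'
  · intro y _
    exact mul_nonneg (hG y).le (Finset.prod_nonneg fun i _ => by unfold ker1; positivity)
  · exact ⟨x, Finset.mem_univ _, mul_pos (hG x) (Finset.prod_pos fun i _ => hx i)⟩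

/-- **Main inequality**, with `|f| + ε` in place of `|f|`. -/
lemma main_eps (f : Cube n → ℝ) (hf : 0 < ∑ y, f y ^ 2) {ε : ℝ} (hε : 0 < ε) :
    norm2 f ≤ √3 ^ deg f * (norm1 f + ε) := by
  classical
  obtain ⟨J, iJ, p, x, u, W, hp, hφ, ha, h0, hk, hWi, hWa, hW⟩ :=
    good_all n (fun y => f y ^ 2) fun y => sq_nonneg _
  set m : ℝ := ∑ y, f y ^ 2 with hm
  set G : Cube n → ℝ := fun y => |f y| + ε with hG
  have hGp : ∀ y, 0 < G y := fun y => by positivity
  have h3 : (0 : ℝ) < √3 := by positivity
  have hpz : ∀ j, f (x j) = 0 → p j = 0 := by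
    intro j hj
    have h1 := hφ fun y => if f y = 0 then 1 else 0
    have h2 : ∑ y, f y ^ 2 * (if f y = 0 then (1 : ℝ) else 0) = 0 := by
      apply Finset.sum_eq_zero
      intro y _
      by_cases h : f y = 0 <;> simp [h]
    rw [h2] at h1
    have h4 := (Finset.sum_eq_zero_iff_of_nonneg (fun j _ => by
      apply mul_nonneg (hp j); split_ifs <;> norm_num)).1 h1 j (Finset.mem_univ _)
    simpa [hj] using h4
  have hKc : ∀ j, ContinuousOn (fun z => Kern (V z) (fun i => u j i z) G) (sphere 0 1) :=
    fun j => Kern_continuous (ha j) G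
  have hKp : ∀ j, ∀ z ∈ sphere (0 : ℂ) 1, 0 < Kern (V z) (fun i => u j i z) G :=
    fun j z hz => Kern_pos hGp (x j) fun i => hk j i z hz
  have hKi : ∀ j, CircleIntegrable (fun z => Real.log (Kern (V z) (fun i => u j i z) G)) 0 1 := by
    intro j
    apply ContinuousOn.circleIntegrable'
    have := (hKc j).log fun z hz => (hKp j z hz).ne'
    simpa using this
  have hKs : ∀ j, CircleIntegrable
      (fun z => p j * Real.log (Kern (V z) (fun i => u j i z) G)) 0 1 :=
    fun j => (hKi j).const_smul (a := p j)
  have step : ∀ j, p j * Real.log |f (x j)| ≤ p j * (deg f * Real.log √3 +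
      Real.circleAverage (fun z => Real.log (Kern (V z) (fun i => u j i z) G)) 0 1) := by
    intro j
    by_cases hfj : f (x j) = 0
    · rw [hpz j hfj, zero_mul, zero_mul]
    apply mul_le_mul_of_nonneg_left _ (hp j)
    have hF0 : FF f (deg f) (u j) 0 = f (x j) := FF_zero f (u j) (x j) (h0 j)
    have hj := jensen_le (K := fun z => √3 ^ deg f * Kern (V z) (fun i => u j i z) G)
      (FF_analytic f (deg f) (ha j)) (by rw [hF0]; exact_mod_cast hfj)
      (continuousOn_const.mul (hKc j))
      (fun z hz => mul_pos (by positivity) (hKp j z hz))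
      (fun z hz => FF_norm_le f (u j) (norm_V_sphere hz) fun y => by
        simp only [hG]; linarith)
    rw [hF0, Complex.norm_real, Real.norm_eq_abs] at hj
    refine hj.trans (le_of_eq ?_)
    have hcongr : Real.circleAverage (fun z => Real.log (√3 ^ deg f *
        Kern (V z) (fun i => u j i z) G)) 0 1 =
        Real.circleAverage (fun z => deg f * Real.log √3 +
          Real.log (Kern (V z) (fun i => u j i z) G)) 0 1 := by
      apply Real.circleAverage_congr_sphere
      intro z hz
      rw [abs_one] at hz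
      simp only
      rw [Real.log_mul (by positivity) (hKp j z hz).ne', Real.log_pow]
    rw [hcongr, Real.circleAverage_fun_add (circleIntegrable_const _ _ _) (hKi j),
      Real.circleAverage_const]
  have hsum : ∑ y, f y ^ 2 * Real.log |f y| ≤
      m * (deg f * Real.log √3) + m * Real.log (mean G) + Real.circleAverage W 0 1 := by
    rw [← hφ fun y => Real.log |f y|]
    have hpm : ∑ j, p j = m := by
      have := hφ fun _ => 1
      simpa using this
    calc ∑ j, p j * Real.log |f (x j)|
        ≤ ∑ j, p j * (deg f * Real.log √3 +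
          Real.circleAverage (fun z => Real.log (Kern (V z) (fun i => u j i z) G)) 0 1) :=
          Finset.sum_le_sum fun j _ => step j
      _ = m * (deg f * Real.log √3) + ∑ j, p j *
          Real.circleAverage (fun z => Real.log (Kern (V z) (fun i => u j i z) G)) 0 1 := by
          simp only [mul_add]
          rw [Finset.sum_add_distrib, ← Finset.sum_mul, hpm]
      _ = m * (deg f * Real.log √3) + Real.circleAverage (fun z => ∑ j, p j *
          Real.log (Kern (V z) (fun i => u j i z) G)) 0 1 := by
          congr 1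
          rw [Real.circleAverage_fun_sum (fun j _ => hKs j)]
          apply Finset.sum_congr rfl
          intro j _
          have := Real.circleAverage_fun_smul (a := p j)
            (f := fun z => Real.log (Kern (V z) (fun i => u j i z) G)) (c := 0) (R := 1)
          simp only [smul_eq_mul] at this
          exact this.symm
      _ ≤ m * (deg f * Real.log √3) + Real.circleAverage (fun z => m * Real.log (mean G) + W z)
          0 1 := by
          apply add_le_add_right
          apply Real.circleAverage_mono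
          · exact CircleIntegrable.fun_sum _ fun j _ => hKs j
          · exact (circleIntegrable_const _ _ _).add hWi
          · intro z hz
            rw [abs_one] at hz
            exact hW z hz G hGp
      _ = _ := by
          rw [Real.circleAverage_fun_add (circleIntegrable_const _ _ _) hWi,
            Real.circleAverage_const]
          ring
  have hEnt : Ent (fun y => f y ^ 2) = 2 * ∑ y, f y ^ 2 * Real.log |f y| +
      m * (n * Real.log 2) - m * Real.log m := by
    unfold Ent
    rw [← hm, Finset.mul_sum]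
    congr 2
    apply Finset.sum_congr rfl
    intro y _
    have hl : Real.log (f y ^ 2) = 2 * Real.log |f y| := by
      rw [← sq_abs, Real.log_pow]; norm_num
    rw [hl]
    ring
  rw [hEnt] at hWa
  have hmG : mean G = norm1 f + ε := by
    unfold norm1
    rw [hG, mean_add]
    congr 1
    rw [show (fun _ : Cube n => ε) = fun _ => ε * 1 by simp, mean_const_mul, mean_one, mul_one]
  have hmpos : 0 < norm1 f + ε := by rw [← hmG]; exact mean_pos hGp
  have hn2 : norm2 f = √(m / 2 ^ n) := by unfold norm2 mean; rw [← hm]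
  have hn2p : 0 < norm2 f := by rw [hn2]; positivity
  have hl2 : 2 * Real.log (norm2 f) = Real.log m - n * Real.log 2 := by
    rw [hn2, Real.log_sqrt (by positivity), Real.log_div hf.ne' (by positivity), Real.log_pow]
    ring
  have hfin : Real.log (norm2 f) ≤ deg f * Real.log √3 + Real.log (norm1 f + ε) := by
    rw [hmG] at hsum
    have h5 : m * Real.log (norm2 f) ≤ m * (deg f * Real.log √3 + Real.log (norm1 f + ε)) := by
      have : m * (2 * Real.log (norm2 f)) = m * (Real.log m - n * Real.log 2) := by rw [hl2]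
      nlinarith
    exact le_of_mul_le_mul_left h5 hf
  rw [← Real.log_pow, ← Real.log_mul (by positivity) hmpos.ne'] at hfin
  exact (Real.log_le_log_iff hn2p (by positivity)).1 hfin

/-- `‖f‖₂ ≤ √3 ^ deg f * ‖f‖₁` for every real function on the cube -/
theorem norm2_le_sqrt3 (f : Cube n → ℝ) : norm2 f ≤ √3 ^ deg f * norm1 f := by
  have hn1 : 0 ≤ norm1 f := mean_nonneg fun x => abs_nonneg _
  rcases (Finset.sum_nonneg (fun y (_ : y ∈ Finset.univ) => sq_nonneg (f y))).eq_or_lt with h | h
  · have : norm2 f = 0 := by unfold norm2 mean; rw [← h]; simp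
    rw [this]; positivity
  · have h3 : (0 : ℝ) < √3 ^ deg f := by positivity
    apply le_of_forall_pos_le_add
    intro δ hδ
    have := main_eps f h (ε := δ / √3 ^ deg f) (by positivity)
    rw [mul_add, mul_div_cancel₀ _ h3.ne'] at this
    exact this

/-- `√3` is the optimal constant -/
theorem isLeast_sqrt3 : IsLeast {C : ℝ | Admissible C} √3 :=
  ⟨fun _ _ f => norm2_le_sqrt3 f, fun _ h => sqrt_three_le h⟩

end Pool.Agent.Lib_helper95.CStar
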