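import Mathlib

/-!
# The analytic path used in `C^* ≤ √3` (MP_041491_an)
-/

set_option autoImplicit false

open Complex Metric

namespace Pool.Agent.Lib_helper95.CStar

/-- Jensen's inequality in the form used here: if `h` is analytic near the closed unit disc,
`h 0 ≠ 0` and `‖h‖ ≤ K` on the unit circle with `K > 0` continuous, then
`log ‖h 0‖` is at most the circle average of `log K`. -/
lemma jensen_le {h : ℂ → ℂ} {K : ℂ → ℝ} (hh : AnalyticOnNhd ℂ h (closedBall 0 1))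
    (h0 : h 0 ≠ 0) (hK : ContinuousOn K (sphere 0 1)) (hpos : ∀ z ∈ sphere (0 : ℂ) 1, 0 < K z)
    (hle : ∀ z ∈ sphere (0 : ℂ) 1, ‖h z‖ ≤ K z) :
    Real.log ‖h 0‖ ≤ Real.circleAverage (fun z => Real.log (K z)) 0 1 := by
  -- a positive lower bound of `K`
  obtain ⟨δ, hδ, hδK⟩ : ∃ δ : ℝ, 0 < δ ∧ ∀ z ∈ sphere (0 : ℂ) 1, δ ≤ K z := by
    obtain ⟨z0, hz0, hmin⟩ := (isCompact_sphere (0 : ℂ) 1).exists_isMinOn
      ⟨1, by simp⟩ hK
    exact ⟨K z0, hpos z0 hz0, fun z hz => hmin hz⟩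
  have hlogK : ContinuousOn (fun z => Real.log (K z)) (sphere 0 1) :=
    hK.log fun z hz => (hpos z hz).ne'
  have hintK : CircleIntegrable (fun z => Real.log (K z)) 0 1 := by
    apply ContinuousOn.circleIntegrable'
    simpa using hlogK
  set g : ℂ → ℂ := fun z => ((δ⁻¹ : ℝ) : ℂ) * h z with hg
  have hga : AnalyticOnNhd ℂ g (closedBall 0 |(1 : ℝ)|) := by
    rw [abs_one]
    exact analyticOnNhd_const.mul hh
  have hg0 : g 0 ≠ 0 := by
    simp [hg, hδ.ne', h0]
  have hint : CircleIntegrable (fun z => Real.log ‖g z‖) 0 1 :=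
    (hga.mono sphere_subset_closedBall).meromorphicOn.circleIntegrable_log_norm
  have key := hga.circleAverage_log_norm one_ne_zero hg0
  have hsum : 0 ≤ ∑ᶠ u, MeromorphicOn.divisor g (closedBall 0 |(1 : ℝ)|) u *
      Real.log (1 * ‖0 - u‖⁻¹) := by
    apply finsum_nonneg
    intro u
    by_cases hu : u ∈ closedBall (0 : ℂ) |(1 : ℝ)|
    · apply mul_nonneg
      · have := MeromorphicOn.AnalyticOnNhd.divisor_nonneg hga
        exact_mod_cast this u
      · by_cases hu0 : u = 0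
        · simp [hu0]
        · apply Real.log_nonneg
          rw [abs_one, mem_closedBall, dist_zero_right] at hu
          have : 0 < ‖u‖ := norm_pos_iff.2 hu0
          rw [zero_sub, norm_neg, one_mul]
          exact (one_le_inv₀ this).2 hu
    · rw [Function.locallyFinsuppWithin.apply_eq_zero_of_notMem _ hu]
      simp
  have hle2 : Real.circleAverage (fun z => Real.log ‖g z‖) 0 1 ≤
      Real.circleAverage (fun z => Real.log δ⁻¹ + Real.log (K z)) 0 1 := by
    apply Real.circleAverage_mono hint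
    · exact (circleIntegrable_const _ _ _).add hintK
    · intro z hz
      rw [abs_one] at hz
      have hKz := hpos z hz
      have h1 : 1 ≤ δ⁻¹ * K z := by
        rw [← inv_mul_cancel₀ hδ.ne']
        exact mul_le_mul_of_nonneg_left (hδK z hz) (inv_nonneg.2 hδ.le)
      rw [← Real.log_mul (inv_ne_zero hδ.ne') hKz.ne']
      have hgz : ‖g z‖ ≤ δ⁻¹ * K z := by
        rw [hg]
        simp only [norm_mul, Complex.norm_real, Real.norm_eq_abs, abs_of_pos (inv_pos.2 hδ)]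
        exact mul_le_mul_of_nonneg_left (hle z hz) (inv_nonneg.2 hδ.le)
      by_cases hz0 : g z = 0
      · rw [hz0, norm_zero, Real.log_zero]
        exact Real.log_nonneg h1
      · exact Real.log_le_log (norm_pos_iff.2 hz0) hgz
  have hadd : Real.circleAverage (fun z => Real.log δ⁻¹ + Real.log (K z)) 0 1 =
      Real.log δ⁻¹ + Real.circleAverage (fun z => Real.log (K z)) 0 1 := by
    have := Real.circleAverage_add (f₁ := fun _ : ℂ => Real.log δ⁻¹)
      (f₂ := fun z => Real.log (K z)) (c := 0) (R := 1) (circleIntegrable_const _ _ _) hintK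
    rw [Real.circleAverage_const] at this
    exact this
  have hnorm : Real.log ‖g 0‖ = Real.log δ⁻¹ + Real.log ‖h 0‖ := by
    rw [hg]
    simp only [norm_mul, Complex.norm_real, Real.norm_eq_abs, abs_of_pos (inv_pos.2 hδ)]
    exact Real.log_mul (inv_ne_zero hδ.ne') (norm_ne_zero_iff.2 h0)
  have : Real.log ‖g 0‖ ≤ Real.circleAverage (fun z => Real.log ‖g z‖) 0 1 := by
    rw [key]; linarith
  linarith

/-- The Moebius map of the unit disc onto the disc of radius `√3` with `V 0 = 1`. -/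
noncomputable def V (z : ℂ) : ℂ := (√3 : ℝ) * ((√3 : ℝ) * z + 1) / ((√3 : ℝ) + z)

lemma sqrt3_sq : (√3 : ℝ) * √3 = 3 := Real.mul_self_sqrt (by norm_num)

lemma one_lt_sqrt3 : (1 : ℝ) < √3 := by
  rw [Real.lt_sqrt (by norm_num)]; norm_num

lemma V_den_ne {z : ℂ} (hz : ‖z‖ ≤ 1) : ((√3 : ℝ) : ℂ) + z ≠ 0 := by
  intro h
  have : ‖((√3 : ℝ) : ℂ)‖ = ‖z‖ := by
    rw [← norm_neg z, eq_neg_of_add_eq_zero_left h]
  rw [Complex.norm_real, Real.norm_eq_abs, abs_of_pos (by positivity)] at this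
  linarith [one_lt_sqrt3]

lemma V_zero : V 0 = 1 := by
  have : ((√3 : ℝ) : ℂ) ≠ 0 := by
    exact_mod_cast (by positivity : (√3 : ℝ) ≠ 0)
  simp [V, this]

lemma V_analytic : AnalyticOnNhd ℂ V (closedBall 0 1) := by
  intro z hz
  rw [mem_closedBall, dist_zero_right] at hz
  unfold V
  apply AnalyticAt.div
  · fun_prop
  · fun_prop
  · exact V_den_ne hz

lemma norm_sq_aux (z : ℂ) : ‖((√3 : ℝ) : ℂ) * z + 1‖ ^ 2 + 2 * (1 - ‖z‖ ^ 2) =
    ‖((√3 : ℝ) : ℂ) + z‖ ^ 2 := by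
  rw [Complex.sq_norm, Complex.sq_norm, Complex.sq_norm, Complex.normSq_apply,
    Complex.normSq_apply, Complex.normSq_apply]
  simp only [add_re, mul_re, ofReal_re, ofReal_im, zero_mul, sub_zero, one_re, add_im, mul_im,
    add_zero, one_im, zero_add]
  nlinarith [sqrt3_sq]

lemma norm_V_le {z : ℂ} (hz : ‖z‖ ≤ 1) : ‖V z‖ ≤ √3 := by
  have h := norm_sq_aux z
  have h1 : ‖((√3 : ℝ) : ℂ) * z + 1‖ ≤ ‖((√3 : ℝ) : ℂ) + z‖ := by
    apply le_of_sq_le_sq _ (norm_nonneg _)
    nlinarith [norm_nonneg z]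
  have h2 : 0 < ‖((√3 : ℝ) : ℂ) + z‖ := norm_pos_iff.2 (V_den_ne hz)
  unfold V
  rw [norm_div, norm_mul, Complex.norm_real, Real.norm_eq_abs, abs_of_pos (by positivity),
    div_le_iff₀ h2]
  exact mul_le_mul_of_nonneg_left h1 (by positivity)

lemma norm_V_sphere {z : ℂ} (hz : z ∈ sphere (0 : ℂ) 1) : ‖V z‖ = √3 := by
  rw [mem_sphere, dist_zero_right] at hz
  have h := norm_sq_aux z
  have h1 : ‖((√3 : ℝ) : ℂ) * z + 1‖ = ‖((√3 : ℝ) : ℂ) + z‖ := by
    have : ‖((√3 : ℝ) : ℂ) * z + 1‖ ^ 2 = ‖((√3 : ℝ) : ℂ) + z‖ ^ 2 := by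
      rw [← h, hz]; ring
    exact (sq_eq_sq₀ (norm_nonneg _) (norm_nonneg _)).1 this
  have h2 : 0 < ‖((√3 : ℝ) : ℂ) + z‖ := norm_pos_iff.2 (V_den_ne hz.le)
  unfold V
  rw [norm_div, norm_mul, Complex.norm_real, Real.norm_eq_abs, abs_of_pos (by positivity), h1,
    mul_div_assoc, div_self h2.ne', mul_one]

end Pool.Agent.Lib_helper95.CStar
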