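import Pool.Agent.Lib_helper95.CStar.Bit
import Pool.Agent.Lib_helper8.CubeDefs

/-!
# Moved and inert bits: the induction over the coordinates
-/

set_option autoImplicit false

open Complex Metric
open Pool.Agent.Lib_helper8.Cube (Cube mean)

namespace Pool.Agent.Lib_helper95.CStar

lemma avg_lin {f g : ℂ → ℝ} (hf : CircleIntegrable f 0 1) (hg : CircleIntegrable g 0 1)
    (α β γ : ℝ) :
    CircleIntegrable (fun z => α * f z + β * g z + γ) 0 1 ∧
    Real.circleAverage (fun z => α * f z + β * g z + γ) 0 1 =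
      α * Real.circleAverage f 0 1 + β * Real.circleAverage g 0 1 + γ := by
  have h1 : CircleIntegrable (fun z => α * f z) 0 1 := hf.const_smul (a := α)
  have h2 : CircleIntegrable (fun z => β * g z) 0 1 := hg.const_smul (a := β)
  have h3 : CircleIntegrable (fun _ : ℂ => γ) 0 1 := circleIntegrable_const _ _ _
  have h12 : CircleIntegrable (fun z => α * f z + β * g z) 0 1 := h1.add h2
  refine ⟨h12.add h3, ?_⟩
  rw [Real.circleAverage_fun_add h12 h3, Real.circleAverage_fun_add h1 h2,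
    Real.circleAverage_const]
  have e1 := Real.circleAverage_fun_smul (a := α) (f := f) (c := 0) (R := 1)
  have e2 := Real.circleAverage_fun_smul (a := β) (f := g) (c := 0) (R := 1)
  simp only [smul_eq_mul] at e1 e2
  rw [e1, e2]

/-- a sign as a complex number -/
noncomputable def sg (e : ℤˣ) : ℂ := ((e : ℤ) : ℂ)

lemma sg_mul_self (e : ℤˣ) : sg e * sg e = 1 := by
  rcases Int.units_eq_one_or e with h | h <;> simp [sg, h]

lemma sg_neg (e : ℤˣ) : sg (-e) = -sg e := by simp [sg]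

lemma sg_ne (e : ℤˣ) : sg e ≠ 0 := by
  intro h; have := sg_mul_self e; rw [h] at this; simp at this

/-- the kernel of one bit -/
noncomputable def ker1 (v u : ℂ) (y : ℤˣ) : ℝ := ‖v + sg y * u‖ / (2 * √3)

/-- the kernel of all bits -/
noncomputable def Kern {n : ℕ} (v : ℂ) (u : Fin n → ℂ) (G : Cube n → ℝ) : ℝ :=
  ∑ y, G y * ∏ i, ker1 v (u i) (y i)

lemma sum_units (g : ℤˣ → ℝ) (e : ℤˣ) : ∑ y, g y = g e + g (-e) := by
  rw [UnitsInt.univ, Finset.sum_insert (by decide), Finset.sum_singleton]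
  rcases Int.units_eq_one_or e with h | h
  · rw [h]
  · rw [h, neg_neg, add_comm]

lemma sum_cons {n : ℕ} (F : Cube (n + 1) → ℝ) (e : ℤˣ) :
    ∑ x, F x = ∑ x : Cube n, F (Fin.cons e x) + ∑ x : Cube n, F (Fin.cons (-e) x) := by
  rw [← (Fin.consEquiv (fun _ => ℤˣ)).sum_comp F, Fintype.sum_prod_type, sum_units _ e]
  rfl

lemma mean_cons {n : ℕ} (G : Cube (n + 1) → ℝ) (e : ℤˣ) :
    mean G = (mean (fun x : Cube n => G (Fin.cons e x)) +
      mean (fun x : Cube n => G (Fin.cons (-e) x))) / 2 := by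
  unfold mean
  rw [sum_cons G e, pow_succ]
  field_simp

lemma mean_pos {n : ℕ} {G : Cube n → ℝ} (h : ∀ y, 0 < G y) : 0 < mean G := by
  unfold mean
  have : 0 < ∑ x, G x := Finset.sum_pos (fun x _ => h x) ⟨fun _ => 1, Finset.mem_univ _⟩
  positivity

lemma mean_comb {n : ℕ} (G H : Cube n → ℝ) (a b : ℝ) :
    mean (fun x => a * G x + b * H x) = a * mean G + b * mean H := by
  unfold mean
  rw [Finset.sum_add_distrib, ← Finset.mul_sum, ← Finset.mul_sum]
  ring

lemma Kern_cons {n : ℕ} (v u0 : ℂ) (u : Fin n → ℂ) (G : Cube (n + 1) → ℝ) (e : ℤˣ) :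
    Kern v (Fin.cons u0 u : Fin (n + 1) → ℂ) G =
      Kern v u (fun x => ker1 v u0 e * G (Fin.cons e x) +
        ker1 v u0 (-e) * G (Fin.cons (-e) x)) := by
  unfold Kern
  rw [sum_cons _ e, ← Finset.sum_add_distrib]
  apply Finset.sum_congr rfl
  intro x _
  rw [Fin.prod_univ_succ, Fin.prod_univ_succ]
  simp only [Fin.cons_zero, Fin.cons_succ]
  ring

lemma ker1_inert_same {v : ℂ} (hv : ‖v‖ = √3) (e : ℤˣ) : ker1 v (sg e * v) e = 1 := by
  unfold ker1
  rw [← mul_assoc, sg_mul_self, one_mul, ← two_mul, norm_mul, Complex.norm_two, hv]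
  exact div_self (by positivity)

lemma ker1_inert_opp (v : ℂ) (e : ℤˣ) : ker1 v (sg e * v) (-e) = 0 := by
  unfold ker1
  rw [sg_neg, neg_mul, ← mul_assoc, sg_mul_self, one_mul, add_neg_cancel, norm_zero, zero_div]

lemma ker1_moved_same (v u : ℂ) (e : ℤˣ) : ker1 v (sg e * u) e = ‖v + u‖ / (2 * √3) := by
  unfold ker1
  rw [← mul_assoc, sg_mul_self, one_mul]

lemma ker1_moved_opp (v u : ℂ) (e : ℤˣ) : ker1 v (sg e * u) (-e) = ‖v - u‖ / (2 * √3) := by
  unfold ker1
  rw [sg_neg, neg_mul, ← mul_assoc, sg_mul_self, one_mul, sub_eq_add_neg]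

/-- unnormalised relative entropy with respect to the uniform measure -/
noncomputable def Ent {n : ℕ} (ν : Cube n → ℝ) : ℝ :=
  ∑ y, ν y * Real.log (ν y) + (∑ y, ν y) * (n * Real.log 2) - (∑ y, ν y) * Real.log (∑ y, ν y)

/-- There is a finite family of analytic paths starting at the vertices, with the weights `ν`,
whose total cost is at most half of the entropy of `ν`. -/
def Good {n : ℕ} (ν : Cube n → ℝ) : Prop :=
  ∃ (J : Type) (_ : Fintype J) (p : J → ℝ) (x : J → Cube n) (u : J → Fin n → ℂ → ℂ) (W : ℂ → ℝ),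
    (∀ j, 0 ≤ p j) ∧
    (∀ φ : Cube n → ℝ, ∑ j, p j * φ (x j) = ∑ y, ν y * φ y) ∧
    (∀ j i, AnalyticOnNhd ℂ (u j i) (closedBall 0 1)) ∧
    (∀ j i, u j i 0 = sg (x j i)) ∧
    (∀ j i, ∀ z ∈ sphere (0 : ℂ) 1, 0 < ker1 (V z) (u j i z) (x j i)) ∧
    CircleIntegrable W 0 1 ∧
    Real.circleAverage W 0 1 ≤ 1 / 2 * Ent ν ∧
    (∀ z ∈ sphere (0 : ℂ) 1, ∀ G : Cube n → ℝ, (∀ y, 0 < G y) →
      ∑ j, p j * Real.log (Kern (V z) (fun i => u j i z) G) ≤
        (∑ y, ν y) * Real.log (mean G) + W z)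

lemma good_zero {n : ℕ} (ν : Cube n → ℝ) (h : ∀ y, ν y = 0) : Good ν := by
  refine ⟨Empty, inferInstance, fun _ => 0, fun j => j.elim, fun j => j.elim, fun _ => 0,
    fun j => j.elim, ?_, fun j => j.elim, fun j => j.elim, fun j => j.elim,
    circleIntegrable_const _ _ _, ?_, ?_⟩
  · intro φ; simp [h]
  · rw [Real.circleAverage_const]; simp [Ent, h]
  · intro z _ G _; simp [h]

lemma Kern_zero (v : ℂ) (w : Fin 0 → ℂ) (G : Cube 0 → ℝ) : Kern v w G = G default := by
  unfold Kern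
  rw [Fintype.sum_subsingleton _ default, Finset.univ_eq_empty, Finset.prod_empty, mul_one]

lemma mean_zero0 (G : Cube 0 → ℝ) : mean G = G default := by
  unfold mean
  rw [Fintype.sum_subsingleton _ default, pow_zero, div_one]

lemma good_base (ν : Cube 0 → ℝ) (h : ∀ y, 0 ≤ ν y) : Good ν := by
  refine ⟨Unit, inferInstance, fun _ => ν default, fun _ => default, fun _ i => i.elim0,
    fun _ => 0, fun _ => h _, ?_, fun _ i => i.elim0, fun _ i => i.elim0, fun _ i => i.elim0,
    circleIntegrable_const _ _ _, ?_, ?_⟩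
  · intro φ
    rw [Fintype.sum_subsingleton (fun y : Cube 0 => ν y * φ y) default]
    simp
  · rw [Real.circleAverage_const]; simp [Ent]
  · intro z _ G _
    simp only [Kern_zero, mean_zero0]
    rw [Fintype.sum_subsingleton (fun y : Cube 0 => ν y) default]
    simp only [Finset.univ_unique, Finset.sum_const, Finset.card_singleton, one_smul, add_zero,
      le_refl]

lemma exists_s {t : ℝ} (h0 : 0 ≤ t) (h1 : t ≤ 1) :
    ∃ s : ℝ, 0 ≤ s ∧ s ≤ 1 / 3 ∧ t * (1 + 3 * s ^ 2) = 4 * s := by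
  have hc : ContinuousOn (fun s : ℝ => 4 * s - t * (1 + 3 * s ^ 2)) (Set.Icc 0 (1 / 3)) := by
    fun_prop
  have := intermediate_value_Icc (by norm_num : (0 : ℝ) ≤ 1 / 3) hc
  obtain ⟨s, hs, hs2⟩ := this (show (0 : ℝ) ∈ Set.Icc _ _ by
    constructor
    · norm_num; exact h0
    · norm_num; nlinarith)
  exact ⟨s, hs.1, hs.2, by simp only at hs2; linarith⟩

lemma good_succ {n : ℕ} (ih : ∀ ν : Cube n → ℝ, (∀ y, 0 ≤ ν y) → Good ν)
    (ν : Cube (n + 1) → ℝ) (hν : ∀ y, 0 ≤ ν y) : Good ν := by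
  classical
  -- the heavier sign
  obtain ⟨e, he⟩ : ∃ e : ℤˣ, ∑ x : Cube n, ν (Fin.cons (-e) x) ≤ ∑ x : Cube n, ν (Fin.cons e x) := by
    rcases le_total (∑ x : Cube n, ν (Fin.cons (-1) x)) (∑ x : Cube n, ν (Fin.cons 1 x)) with h | h
    · exact ⟨1, h⟩
    · exact ⟨-1, by simpa using h⟩
  set ν1 : Cube n → ℝ := fun x => ν (Fin.cons e x) with hν1
  set ν2 : Cube n → ℝ := fun x => ν (Fin.cons (-e) x) with hν2
  set mp : ℝ := ∑ x, ν1 x with hmp
  set mm : ℝ := ∑ x, ν2 x with hmm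
  have hmp0 : 0 ≤ mp := Finset.sum_nonneg fun x _ => hν _
  have hmm0 : 0 ≤ mm := Finset.sum_nonneg fun x _ => hν _
  have hsumν : ∑ y, ν y = mp + mm := sum_cons ν e
  rcases hmp0.eq_or_lt with hz | hmp1
  · apply good_zero
    have h0 : ∑ y, ν y = 0 := by rw [hsumν]; linarith
    intro y
    exact (Finset.sum_eq_zero_iff_of_nonneg fun x _ => hν x).1 h0 y (Finset.mem_univ _)
  set m : ℝ := mp + mm with hm
  have hm0 : 0 < m := by linarith
  set t : ℝ := (mp - mm) / m with ht
  have ht0 : 0 ≤ t := div_nonneg (by linarith) hm0.le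
  have ht1 : t ≤ 1 := by rw [ht, div_le_one hm0]; linarith
  have hmt : m * t = mp - mm := by rw [ht]; field_simp
  have hmt2 : m * (1 - t) / 2 = mm := by rw [mul_sub, hmt]; linarith
  obtain ⟨s, hs0, hs1, hst⟩ := exists_s ht0 ht1
  obtain ⟨J1, i1, p1, x1, u1, W1, a1, b1, c1, d1, e1, f1, g1, k1⟩ := ih ν1 fun y => hν _
  obtain ⟨J2, i2, p2, x2, u2, W2, a2, b2, c2, d2, e2, f2, g2, k2⟩ := ih ν2 fun y => hν _
  set θ : ℝ := mm / mp with hθ
  have hθ0 : 0 ≤ θ := div_nonneg hmm0 hmp1.le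
  have hθ1 : θ ≤ 1 := by rw [hθ, div_le_one hmp1]; exact he
  have hθm : θ * mp = mm := by rw [hθ]; field_simp
  set Ω : ℂ → ℝ := fun z => 2 * mp * Real.log ‖1 - (s : ℂ) ^ 2 * V z ^ 2‖ +
    (-(mp - mm)) * Real.log ‖Q s (V z)‖ + ((mp - mm) * Real.log 2 - m * Real.log (1 + 3 * s ^ 2))
    with hΩ
  obtain ⟨hΩi, hΩa⟩ := avg_lin (int_P s) (int_Q s) (2 * mp) (-(mp - mm))
    ((mp - mm) * Real.log 2 - m * Real.log (1 + 3 * s ^ 2))
  change CircleIntegrable Ω 0 1 at hΩi
  change Real.circleAverage Ω 0 1 = _ at hΩa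
  have hΩ1 : CircleIntegrable (fun z => Ω z + W1 z) 0 1 := hΩi.add f1
  refine ⟨(J1 ⊕ J1) ⊕ J2, inferInstance,
    Sum.elim (Sum.elim (fun j => θ * p1 j) (fun j => (1 - θ) * p1 j)) p2,
    Sum.elim (Sum.elim (fun j => Fin.cons e (x1 j)) (fun j => Fin.cons e (x1 j)))
      (fun j => Fin.cons (-e) (x2 j)),
    Sum.elim (Sum.elim (fun j => Fin.cons (fun z => sg e * V z) (u1 j))
      (fun j => Fin.cons (fun z => sg e * U s (V z)) (u1 j)))
      (fun j => Fin.cons (fun z => sg (-e) * V z) (u2 j)),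
    fun z => Ω z + W1 z + W2 z, ?_, ?_, ?_, ?_, ?_, ?_, ?_, ?_⟩
  · rintro ((j | j) | j)
    · exact mul_nonneg hθ0 (a1 j)
    · exact mul_nonneg (by linarith) (a1 j)
    · exact a2 j
  · intro φ
    rw [Fintype.sum_sum_type, Fintype.sum_sum_type, sum_cons _ e]
    simp only [Sum.elim_inl, Sum.elim_inr]
    have h1 := b1 fun x => φ (Fin.cons e x)
    have h2 := b2 fun x => φ (Fin.cons (-e) x)
    rw [← h2]
    have h3 : ∑ x : Cube n, ν (Fin.cons e x) * φ (Fin.cons e x) =
      ∑ j, p1 j * φ (Fin.cons e (x1 j)) := h1.symm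
    rw [h3]
    congr 1
    rw [← Finset.sum_add_distrib]
    apply Finset.sum_congr rfl
    intro j _
    ring
  · rintro ((j | j) | j) i
    · refine Fin.cases ?_ (fun i => ?_) i
      · exact analyticOnNhd_const.mul V_analytic
      · exact c1 j i
    · refine Fin.cases ?_ (fun i => ?_) i
      · exact analyticOnNhd_const.mul (U_analytic hs0 hs1)
      · exact c1 j i
    · refine Fin.cases ?_ (fun i => ?_) i
      · exact analyticOnNhd_const.mul V_analytic
      · exact c2 j i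
  · rintro ((j | j) | j) i
    · refine Fin.cases ?_ (fun i => ?_) i
      · simp [V_zero]
      · simpa using d1 j i
    · refine Fin.cases ?_ (fun i => ?_) i
      · simp [V_zero, U_one hs1]
      · simpa using d1 j i
    · refine Fin.cases ?_ (fun i => ?_) i
      · simp [V_zero]
      · simpa using d2 j i
  · rintro ((j | j) | j) i z hz
    · refine Fin.cases ?_ (fun i => ?_) i
      · simp only [Sum.elim_inl, Fin.cons_zero]
        rw [ker1_inert_same (norm_V_sphere hz)]; exact one_pos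
      · simpa using e1 j i z hz
    · refine Fin.cases ?_ (fun i => ?_) i
      · simp only [Sum.elim_inl, Sum.elim_inr, Fin.cons_zero]
        have hv := norm_V_sphere hz
        rw [ker1_moved_same, moved_add hs0 hs1 hv]
        have hze := ze_lt hv
        rw [abs_lt] at hze
        have h1 : 0 < 1 + ze (V z) := by linarith
        have h2 : 0 < 1 + 3 * s ^ 2 - 4 * s * ze (V z) := by
          have h4 : 0 ≤ s * (1 - ze (V z)) := mul_nonneg hs0 (by linarith)
          have h5 : 0 ≤ (1 - 3 * s) * (1 - s) := mul_nonneg (by linarith) (by linarith)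
          have h6 : 0 < 1 + 3 * s ^ 2 - 4 * s ∨ s = 1 / 3 := by
            rcases hs1.lt_or_eq with h | h
            · left
              have : 0 < (1 - 3 * s) * (1 - s) := mul_pos (by linarith) (by linarith)
              linarith
            · right; exact h
          rcases h6 with h6 | h6
          · linarith
          · rw [h6]; linarith
        have h3 : 0 < ‖Q s (V z)‖ := norm_pos_iff.2 (Q_ne_zero hs0 hs1 hv.le)
        positivity
      · simpa using e1 j i z hz
    · refine Fin.cases ?_ (fun i => ?_) i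
      · simp only [Sum.elim_inr, Fin.cons_zero]
        rw [ker1_inert_same (norm_V_sphere hz)]; exact one_pos
      · simpa using e2 j i z hz
  · exact hΩ1.add f2
  · rw [Real.circleAverage_fun_add hΩ1 f2, Real.circleAverage_fun_add hΩi f1, hΩa,
      avg_P hs0 hs1, avg_Q hs0 hs1]
    have hE : Ent ν = Ent ν1 + Ent ν2 +
        (mp * Real.log mp + mm * Real.log mm + m * Real.log 2 - m * Real.log m) := by
      unfold Ent
      rw [hsumν, sum_cons (fun y => ν y * Real.log (ν y)) e, ← hmp, ← hmm]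
      push_cast
      have : m = mp + mm := hm
      have e3 : ∀ x : ℝ, m * x = mp * x + mm * x := fun x => by rw [this]; ring
      rw [e3 (((n : ℝ) + 1) * Real.log 2), e3 (Real.log 2)]
      ring
    have hcost := cost_le hmp0 hmm0 hm0 hm.symm hs0 hs1
    have l1 : Real.log (1 - s ^ 2) = Real.log (1 - s) + Real.log (1 + s) := by
      rw [← Real.log_mul (by linarith) (by linarith)]; congr 1; ring
    have l2 : Real.log (2 * (1 - s) ^ 2) = Real.log 2 + 2 * Real.log (1 - s) := by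
      have : (1 - s) ^ 2 ≠ 0 := pow_ne_zero _ (by linarith)
      rw [Real.log_mul two_ne_zero this, Real.log_pow]; norm_num
    rw [l1, l2, hE]
    linarith
  · intro z hz G hG
    have hv := norm_V_sphere hz
    set v := V z with hvd
    rw [Fintype.sum_sum_type, Fintype.sum_sum_type]
    simp only [Sum.elim_inl, Sum.elim_inr]
    set G1 : Cube n → ℝ := fun x => G (Fin.cons e x) with hG1
    set G2 : Cube n → ℝ := fun x => G (Fin.cons (-e) x) with hG2
    set κ1 : ℝ := ‖v + U s v‖ / (2 * √3) with hκ1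
    set κ2 : ℝ := ‖v - U s v‖ / (2 * √3) with hκ2
    have hcons : ∀ (w : ℂ → ℂ) (q : Fin n → ℂ → ℂ),
        (fun i => (Fin.cons w q : Fin (n + 1) → ℂ → ℂ) i z) =
          (Fin.cons (w z) (fun i => q i z) : Fin (n + 1) → ℂ) := by
      intro w q
      funext i
      refine Fin.cases ?_ (fun i => ?_) i <;> simp
    have q1 : ∀ j, Kern v (fun i => (Fin.cons (fun z => sg e * V z) (u1 j) :
        Fin (n + 1) → ℂ → ℂ) i z) G = Kern v (fun i => u1 j i z) G1 := by
      intro j
      rw [hcons, Kern_cons _ _ _ _ e, ← hvd, ker1_inert_same hv, ker1_inert_opp]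
      congr 1
      funext x
      rw [one_mul, zero_mul, add_zero]
    have q2 : ∀ j, Kern v (fun i => (Fin.cons (fun z => sg e * U s (V z)) (u1 j) :
        Fin (n + 1) → ℂ → ℂ) i z) G =
          Kern v (fun i => u1 j i z) (fun x => κ1 * G1 x + κ2 * G2 x) := by
      intro j
      rw [hcons, Kern_cons _ _ _ _ e, ← hvd, ker1_moved_same, ker1_moved_opp]
    have q3 : ∀ j, Kern v (fun i => (Fin.cons (fun z => sg (-e) * V z) (u2 j) :
        Fin (n + 1) → ℂ → ℂ) i z) G = Kern v (fun i => u2 j i z) G2 := by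
      intro j
      rw [hcons, Kern_cons _ _ _ _ (-e), ← hvd, ker1_inert_same hv, ker1_inert_opp]
      congr 1
      funext x
      rw [one_mul, zero_mul, add_zero]
    simp only [q1, q2, q3]
    have hze := ze_lt hv
    have hQ : 0 < ‖Q s v‖ := norm_pos_iff.2 (Q_ne_zero hs0 hs1 hv.le)
    set ζ := ze v with hζ
    have hB : 0 < 1 + 3 * s ^ 2 := by positivity
    set L : ℝ := (1 + 3 * s ^ 2) / ‖Q s v‖ with hL
    have hL0 : 0 < L := div_pos hB hQ
    have r1 : (1 - t * ζ) * (1 + 3 * s ^ 2) = 1 + 3 * s ^ 2 - 4 * s * ζ := by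
      linear_combination (-ζ) * hst
    have r2 : (1 + t * ζ) * (1 + 3 * s ^ 2) = 1 + 3 * s ^ 2 + 4 * s * ζ := by
      linear_combination ζ * hst
    have hκ1' : κ1 = (1 + ζ) * (1 - t * ζ) * L := by
      rw [hκ1, moved_add hs0 hs1 hv, ← hζ, ← r1, hL]; ring
    have hκ2' : κ2 = (1 - ζ) * (1 + t * ζ) * L := by
      rw [hκ2, moved_sub hs0 hs1 hv, ← hζ, ← r2, hL]; ring
    rw [abs_lt] at hze
    have htζ : |t * ζ| < 1 := by
      rw [abs_mul, abs_of_nonneg ht0]
      calc t * |ζ| ≤ 1 * |ζ| := mul_le_mul_of_nonneg_right ht1 (abs_nonneg _)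
        _ < 1 := by rw [one_mul]; exact abs_lt.2 hze
    rw [abs_lt] at htζ
    have s1 : 0 < 1 - t * ζ := by linarith
    have s2 : 0 < 1 + t * ζ := by linarith
    have s3 : 0 < 1 - ζ := by linarith
    have s4 : 0 < 1 + ζ := by linarith
    have hκ1p : 0 < κ1 := by rw [hκ1']; positivity
    have hκ2p : 0 < κ2 := by rw [hκ2']; positivity
    have hG1p : ∀ y, 0 < G1 y := fun y => hG _
    have hG2p : ∀ y, 0 < G2 y := fun y => hG _
    have t1 := k1 z hz G1 hG1p
    have t2 := k1 z hz (fun x => κ1 * G1 x + κ2 * G2 x) fun y => by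
      have := hG1p y; have := hG2p y; positivity
    have t3 := k2 z hz G2 hG2p
    rw [mean_comb] at t2
    rw [← hvd] at t1 t2 t3
    set a := mean G1 with ha
    set b := mean G2 with hb
    have ha0 : 0 < a := mean_pos hG1p
    have hb0 : 0 < b := mean_pos hG2p
    have hmean : mean G = (a + b) / 2 := mean_cons G e
    have hbit := bit_ineq (ζ := ζ) hm0 ht0 ht1 (abs_lt.2 hze) ha0 hb0 hL0
    rw [hmt2, hmt, ← hκ1', ← hκ2'] at hbit
    have hPn : 0 < ‖1 - (s : ℂ) ^ 2 * v ^ 2‖ := norm_pos_iff.2 (one_sub_ne_zero hs0 hs1 hv.le)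
    have l1 : Real.log ((1 - t * ζ) * (1 + t * ζ)) =
        2 * Real.log ‖1 - (s : ℂ) ^ 2 * v ^ 2‖ - 2 * Real.log (1 + 3 * s ^ 2) := by
      have h1 : (1 - t * ζ) * (1 + t * ζ) =
          ‖1 - (s : ℂ) ^ 2 * v ^ 2‖ ^ 2 / (1 + 3 * s ^ 2) ^ 2 := by
        rw [norm_P hv, ← hζ, ← r1, ← r2]
        field_simp
      rw [h1, Real.log_div (by positivity) (by positivity), Real.log_pow, Real.log_pow]
      norm_num
    have l2 : Real.log (2 * L * ((1 - t * ζ) * (1 + t * ζ))) =
        Real.log 2 + Real.log (1 + 3 * s ^ 2) - Real.log ‖Q s v‖ +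
          (2 * Real.log ‖1 - (s : ℂ) ^ 2 * v ^ 2‖ - 2 * Real.log (1 + 3 * s ^ 2)) := by
      rw [Real.log_mul (by positivity) (by positivity), l1, Real.log_mul two_ne_zero hL0.ne', hL,
        Real.log_div hB.ne' hQ.ne']
      ring
    rw [l1, l2] at hbit
    have y1 : ∑ j, θ * p1 j * Real.log (Kern v (fun i => u1 j i z) G1) ≤
        mm * Real.log a + θ * W1 z := by
      have := mul_le_mul_of_nonneg_left t1 hθ0
      rw [Finset.mul_sum, mul_add, ← mul_assoc, hθm] at this
      refine le_trans (le_of_eq ?_) this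
      exact Finset.sum_congr rfl fun j _ => by ring
    have y2 : ∑ j, (1 - θ) * p1 j * Real.log (Kern v (fun i => u1 j i z)
        (fun x => κ1 * G1 x + κ2 * G2 x)) ≤
        (mp - mm) * Real.log (κ1 * a + κ2 * b) + (1 - θ) * W1 z := by
      have := mul_le_mul_of_nonneg_left t2 (sub_nonneg.2 hθ1)
      rw [Finset.mul_sum, mul_add, ← mul_assoc, show (1 - θ) * (∑ y, ν1 y) = mp - mm by
        rw [← hmp, sub_mul, hθm, one_mul]] at this
      refine le_trans (le_of_eq ?_) this
      exact Finset.sum_congr rfl fun j _ => by ring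
    rw [hsumν, hmean]
    simp only [hΩ, ← hvd]
    have hsum : m = mp + mm := hm
    have e3 : m * Real.log (1 + 3 * s ^ 2) =
      mp * Real.log (1 + 3 * s ^ 2) + mm * Real.log (1 + 3 * s ^ 2) := by rw [hsum]; ring
    rw [e3]
    linarith [y1, y2, t3, hbit]

/-- Every nonnegative weight on the cube has a cheap family of paths. -/
theorem good_all : ∀ (n : ℕ) (ν : Cube n → ℝ), (∀ y, 0 ≤ ν y) → Good ν
  | 0, ν, h => good_base ν h
  | n + 1, ν, h => good_succ (good_all n) ν h

end Pool.Agent.Lib_helper95.CStar
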